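import Pool.Agent.Lib.MP_9b987c_gt.HC.PB.Loc
import Pool.Agent.Lib.MP_9b987c_gt.HC.PB.Neg

/-!
# The representation category up to homotopy and hypercovers (MP_9b987c_gt, Q1)
-/

namespace Pool.Agent.Results.MP_9b987c_gt.HypercoverEquivalence

open Pool.Agent.Lib.MP_9b987c_gt.HC

/-- For every hypercover `φ : G' → G` of Lie groupoids the pullback functor `Rep^∞[G] → Rep^∞[G']`
is an equivalence of categories (unital representations up to homotopy on bounded graded vector
bundles of bounded rank).  If the unit conditions are dropped, or if bundles of unbounded rank are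
allowed, then this is false for some hypercover. -/
theorem result :
    (∀ (G' G : LieGpd) (φ : Hypercover G' G), (pullInf true true φ).IsEquivalence) ∧
    (∀ u b : Bool, u = false ∨ b = false →
      ∃ (G' G : LieGpd) (φ : Hypercover G' G), ¬ (pullInf u b φ).IsEquivalence) :=
  ⟨fun _ _ φ => PB.main' φ, PB.neg⟩

end Pool.Agent.Results.MP_9b987c_gt.HypercoverEquivalence
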